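import Pool.Agent.Helper8.DE.Defs

/-!
The coefficient bundle `E` itself: the curvature term as a form of order zero.
-/

set_option autoImplicit false

namespace Pool.Agent.Helper43.DE

open Pool.Agent.Helper8.DC Pool.Agent.Helper8.DA Pool.Agent.Helper8.DE

theorem crossMat_lin (a : R3) (r t : Fin 3) :
    crossMat a r t = ∑ d, crossMat (Pi.single d 1) r t * a d := by
  fin_cases r <;> fin_cases t <;>
    simp [crossMat, Matrix.of_apply, cross_apply, Pi.single_apply]

/-- E4a -/
theorem curvTerm_cross (F : Fin 4 → Fin 4 → R3) (φ : Fin 3 → R3) :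
    ∑ r, rest (φ r) F + curvTerm (fun r t l m => crossMat (F l m) r t) φ F = kE (gram F) φ := by
  have key : ∀ r t c : Fin 3, wedge (fun l m => crossMat (F l m) r t) (cmp F c) =
      ∑ d, crossMat (Pi.single d 1) r t * gram F d c := by
    intro r t c
    have h : (fun l m => crossMat (F l m) r t) =
        fun l m => ∑ d, crossMat (Pi.single d 1) r t * F l m d := by
      funext l m
      exact crossMat_lin _ _ _
    rw [h]
    simp only [wedge, gram, Pool.Agent.Helper8.DC.cmp, Fin.sum_univ_three]
    ring
  simp only [curvTerm, kE, rest, key]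

end Pool.Agent.Helper43.DE
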